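import Pool.Agent.Helper3.FewP.Goals

/-!
# FewPoints (MP_d3128a_ag), block STRIP: packet LIN

The number of lattice points of the strip on a line.
-/

set_option autoImplicit false

namespace Pool.Agent.Helper15.FewP

open Pool.Agent.Helper3.FewP

theorem t : G_LIN := by
  intro k P N' w c S hP hS hw
  have hP' : (1 : ℤ) ≤ P := by exact_mod_cast hP
  set L : ℤ := max 0 (2 * c) with hL
  set U : ℤ := min (N' : ℤ) (2 * c + 2 * P * k) with hU
  have key : ∀ x ∈ S, (P : ℤ) * L ≤ c + P * x.2 ∧ c + P * x.2 < P * U := by
    intro x hx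
    obtain ⟨⟨h0, h1, h2, h3⟩, h4⟩ := hS x hx
    have hj : x.1 = c + P * x.2 := by linarith
    have hD : DD P x.1 x.2 = x.1 - 2 * P * c := by
      unfold DD
      rw [hj]
      ring
    rw [hD] at h2 h3
    push_cast at h1
    constructor
    · rw [hL]
      rcases le_total 0 (2 * c) with h | h
      · rw [max_eq_right h]
        nlinarith
      · rw [max_eq_left h]
        nlinarith
    · rw [hU]
      rcases le_total (N' : ℤ) (2 * c + 2 * P * k) with h | h
      · rw [min_eq_left h]
        linarith
      · rw [min_eq_right h]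
        nlinarith
  set q : ℤ := (c - P * L) / P with hq
  have hq1 : (P : ℤ) * q ≤ c - P * L := Int.mul_ediv_self_le (by omega)
  have hq2 : c - P * L < P * q + P := by
    have := Int.lt_mul_ediv_self_add (x := c - P * L) (k := (P : ℤ)) (by omega)
    linarith
  have hinj : Set.InjOn (fun x : ℤ × ℤ => x.2) (S : Set (ℤ × ℤ)) := by
    intro x hx y hy hxy
    have h1 := (hS x (by simpa using hx)).2
    have h2 := (hS y (by simpa using hy)).2
    simp only at hxy
    rw [hxy] at h1
    exact Prod.ext (by linarith) hxy
  have hsub : S.image (fun x : ℤ × ℤ => x.2) ⊆ Finset.Ico (-q) (-q + w) := by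
    intro n hn
    obtain ⟨x, hx, rfl⟩ := Finset.mem_image.mp hn
    obtain ⟨h1, h2⟩ := key x hx
    rw [Finset.mem_Ico]
    constructor
    · have : (P : ℤ) * (-q - 1) < P * x.2 := by nlinarith
      have := lt_of_mul_lt_mul_left this (by omega)
      omega
    · have hUL : U ≤ L + w := by linarith
      have : (P : ℤ) * x.2 < P * (-q + w) := by nlinarith
      exact lt_of_mul_lt_mul_left this (by omega)
  calc S.card = (S.image (fun x : ℤ × ℤ => x.2)).card := (Finset.card_image_of_injOn hinj).symm
    _ ≤ (Finset.Ico (-q) (-q + w)).card := Finset.card_le_card hsub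
    _ = w := by simp

end Pool.Agent.Helper15.FewP
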